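import Mathlib

set_option autoImplicit false

namespace Pool.Agent.MP_b7b920_al.H80

open Polynomial

section ring

variable {R : Type*} [Ring R]

/-- in a ring, `B` arbitrary, `(1 + q B)^i` summed over `i < n` is `n` modulo `q`. -/
lemma geom_mod (q n : ℕ) (B : R) :
    ∃ C : R, Commute B C ∧ ∑ i ∈ Finset.range n, (1 + (q : R) * B) ^ i = (n : R) + q * C := by
  have key : ∀ m : ℕ, ∃ C : R, Commute B C ∧ (1 + (q : R) * B) ^ m = 1 + q * C := by
    intro m
    induction m with
    | zero => exact ⟨0, Commute.zero_right B, by simp⟩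
    | succ m ih =>
      obtain ⟨C, hC, h⟩ := ih
      refine ⟨C + B + q * (C * B), ?_, ?_⟩
      · refine ((hC.add_right (Commute.refl B))).add_right ?_
        exact (Nat.cast_commute q B).symm.mul_right (hC.mul_right (Commute.refl B))
      · rw [pow_succ, h]
        have e1 : (q : R) * C * ((q : R) * B) = q * (q * (C * B)) := by
          rw [mul_assoc (q : R) C, ← mul_assoc C (q : R) B, ← (Nat.cast_commute q C).eq,
            mul_assoc (q : R) C B]
        rw [mul_add, mul_one, add_mul, one_mul, e1]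
        simp only [mul_add]
        abel
  induction n with
  | zero => exact ⟨0, Commute.zero_right B, by simp⟩
  | succ n ih =>
    obtain ⟨C, hC, h⟩ := ih
    obtain ⟨D, hD, h'⟩ := key n
    refine ⟨C + D, hC.add_right hD, ?_⟩
    rw [Finset.sum_range_succ, h, h', mul_add, Nat.cast_add, Nat.cast_one]
    abel

/-- in a ring, for `q` odd, `∑_{i<q} (1 + q B)^i = q (1 + q C)` with `C` commuting with what commutes
with `B`. -/
lemma geom_mod_sq (q : ℕ) (hq : Odd q) (B : R) :
    ∃ C : R, (∀ X, Commute X B → Commute X C) ∧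
      ∑ i ∈ Finset.range q, (1 + (q : R) * B) ^ i = (q : R) * (1 + q * C) := by
  have h := @odd_sq_dvd_geom_sum₂_sub ℤ[X] _ 1 X q hq
  obtain ⟨P, hP⟩ := h
  refine ⟨aeval B P, ?_, ?_⟩
  · intro Y hY
    have : ∀ P : ℤ[X], Commute Y (aeval B P) := by
      intro P
      induction P using Polynomial.induction_on' with
      | add p q hp hq => rw [map_add]; exact hp.add_right hq
      | monomial n a =>
        rw [aeval_monomial]
        have h1 : Commute Y (algebraMap ℤ R a) := by
          simp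
        exact h1.mul_right (hY.pow_right n)
    exact this P
  · have h2 := congrArg (aeval B) hP
    simp only [map_sub, map_sum, map_mul, map_pow, map_add, map_one, aeval_X, one_pow, mul_one,
      map_natCast] at h2
    rw [sub_eq_iff_eq_add] at h2
    rw [h2, mul_add, mul_one, sq, mul_assoc]
    abel

/-- for commuting-with-scalars reasons: `φ = c + q M` implies `q^(k+1) ∣ φ^(q^k) - c^(q^k)`. -/
lemma pow_sub_pow (q : ℕ) (c : ℤ) (M : R) (k : ℕ) :
    ∃ N : R, ((c : R) + q * M) ^ q ^ k = (c : R) ^ q ^ k + (q : R) ^ (k + 1) * N := by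
  have h := @dvd_sub_pow_of_dvd_sub ℤ[X] _ q (C c + (q : ℤ[X]) * X) (C c)
    ⟨X, by simp⟩ k
  obtain ⟨P, hP⟩ := h
  refine ⟨aeval M P, ?_⟩
  have h2 := congrArg (aeval M) hP
  simp only [map_sub, map_mul, map_pow, map_add, aeval_X, map_natCast,
    eq_intCast, map_intCast] at h2
  rw [← h2]
  abel

end ring

section tf

variable {R : Type*} [Ring R]

/-- the ring is torsion free -/
def TF (R : Type*) [Ring R] : Prop := ∀ (n : ℕ) (x : R), n ≠ 0 → (n : R) * x = 0 → x = 0

/-- `q`-adically separated -/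
def Sep (q : ℕ) (R : Type*) [Ring R] : Prop := ∀ x : R, (∀ j : ℕ, ∃ y : R, x = (q : R) ^ j * y) → x = 0

lemma coprime_step (htf : TF R) (q : ℕ) (hq : q.Prime) (n : ℕ) (hn : ¬ q ∣ n)
    (φ : R) (hφ : φ ^ n = 1) (j : ℕ) (M : R) (h : φ = 1 + (q : R) ^ (j + 1) * M) :
    ∃ M' : R, φ = 1 + (q : R) ^ (j + 2) * M' := by
  set B : R := (q : R) ^ j * M with hB
  have hφB : φ = 1 + (q : R) * B := by rw [h, hB, ← mul_assoc, pow_succ' (q : R) j]
  obtain ⟨C, hC, hsum⟩ := geom_mod q n B
  have hgeom : (φ - 1) * ∑ i ∈ Finset.range n, φ ^ i = φ ^ n - 1 := mul_geom_sum φ n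
  rw [hφ, sub_self] at hgeom
  rw [hφB] at hgeom
  rw [hsum] at hgeom
  -- q * B * (n + q C) = 0
  have h1 : (1 + (q : R) * B - 1) = (q : R) * ((q : R) ^ j * M) := by rw [hB]; abel
  rw [h1] at hgeom
  -- q^(j+1) * (M * (n + qC)) = 0
  have h2 : ((q ^ (j + 1) : ℕ) : R) * (M * ((n : R) + q * C)) = 0 := by
    rw [Nat.cast_pow, ← hgeom, pow_succ' (q : R) j]
    simp only [mul_assoc]
  have hq0 : q ^ (j + 1) ≠ 0 := pow_ne_zero _ hq.ne_zero
  have h3 := htf _ _ hq0 h2
  -- M * n = - M q C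
  have hcop : Nat.Coprime n q := (Nat.coprime_comm.mp ((Nat.Prime.coprime_iff_not_dvd hq).mpr hn))
  obtain ⟨a, b, hab⟩ : ∃ a b : ℤ, a * n + b * q = 1 := by
    have := Nat.isCoprime_iff_coprime.mpr hcop
    exact this
  have hM : M = (q : R) * ((b : R) * M - (a : R) * (M * C)) := by
    have e1 : M * (n : R) = - ((q : R) * (M * C)) := by
      rw [mul_add] at h3
      have : M * ((q : R) * C) = (q : R) * (M * C) := by
        rw [← mul_assoc, ← (Nat.cast_commute q M).eq, mul_assoc]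
      rw [this] at h3
      exact eq_neg_of_add_eq_zero_left h3
    have e2 : M = ((a * n + b * q : ℤ) : R) * M := by rw [hab]; simp
    calc M = ((a * n + b * q : ℤ) : R) * M := e2
      _ = (a : R) * (M * (n : R)) + (q : R) * ((b : R) * M) := by
          push_cast
          rw [add_mul]
          congr 1
          · rw [mul_assoc, (Nat.cast_commute n M).eq]
          · rw [← mul_assoc, (Nat.cast_commute q (b : R)).eq]
      _ = _ := by
          rw [e1, mul_sub]
          rw [mul_neg, ← mul_assoc (a : R), ← (Nat.cast_commute q (a : R)).eq, mul_assoc (q : R)]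
          abel
  refine ⟨(b : R) * M - (a : R) * (M * C), ?_⟩
  rw [h]
  congr 1
  conv_lhs => rw [hM]
  rw [← mul_assoc, ← pow_succ]

lemma q_step (htf : TF R) (q : ℕ) (hq : q.Prime) (hodd : Odd q)
    (φ : R) (hφ : φ ^ q = 1) (j : ℕ) (M : R) (h : φ = 1 + (q : R) ^ (j + 1) * M) :
    ∃ M' : R, φ = 1 + (q : R) ^ (j + 2) * M' := by
  set B : R := (q : R) ^ j * M with hB
  have hφB : φ = 1 + (q : R) * B := by rw [h, hB, ← mul_assoc, pow_succ' (q : R) j]
  obtain ⟨C, hC, hsum⟩ := geom_mod_sq q hodd B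
  have hgeom : (φ - 1) * ∑ i ∈ Finset.range q, φ ^ i = φ ^ q - 1 := mul_geom_sum φ q
  rw [hφ, sub_self, hφB, hsum] at hgeom
  have h1 : (1 + (q : R) * B - 1) = (q : R) * ((q : R) ^ j * M) := by rw [hB]; abel
  rw [h1] at hgeom
  have h2 : ((q ^ (j + 2) : ℕ) : R) * (M * (1 + q * C)) = 0 := by
    rw [Nat.cast_pow, ← hgeom, pow_succ' (q : R) (j + 1), pow_succ' (q : R) j]
    have : (q : R) * ((q : R) ^ j * M) * ((q : R) * (1 + q * C))
        = (q : R) * ((q : R) * (((q : R) ^ j * M) * (1 + q * C))) := by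
      rw [mul_assoc (q : R) ((q : R) ^ j * M)]
      congr 1
      rw [← mul_assoc ((q : R) ^ j * M) (q : R), ← (Nat.cast_commute q ((q : R) ^ j * M)).eq,
        mul_assoc]
    rw [this]
    simp only [mul_assoc]
  have hq0 : q ^ (j + 2) ≠ 0 := pow_ne_zero _ hq.ne_zero
  have h3 := htf _ _ hq0 h2
  refine ⟨-(M * C), ?_⟩
  rw [h]
  congr 1
  have hM : M = (q : R) * (-(M * C)) := by
    rw [mul_add, mul_one] at h3
    have : M * ((q : R) * C) = (q : R) * (M * C) := by
      rw [← mul_assoc, ← (Nat.cast_commute q M).eq, mul_assoc]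
    rw [this] at h3
    rw [mul_neg]
    exact eq_neg_of_add_eq_zero_left h3
  conv_lhs => rw [hM]
  rw [← mul_assoc, ← pow_succ]

lemma all_steps (q : ℕ) (hsep : Sep q R) (φ : R)
    (step : ∀ (j : ℕ) (M : R), φ = 1 + (q : R) ^ (j + 1) * M → ∃ M' : R, φ = 1 + (q : R) ^ (j + 2) * M')
    (h1 : ∃ M : R, φ = 1 + (q : R) * M) : φ = 1 := by
  have all : ∀ j : ℕ, ∃ M : R, φ = 1 + (q : R) ^ (j + 1) * M := by
    intro j
    induction j with
    | zero => simpa using h1
    | succ j ih =>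
      obtain ⟨M, hM⟩ := ih
      exact step j M hM
  have := hsep (φ - 1) (fun j => by
    obtain ⟨M, hM⟩ := all j
    refine ⟨(q : R) * M, ?_⟩
    rw [hM, ← mul_assoc, ← pow_succ]
    abel)
  exact sub_eq_zero.mp this

/-- Minkowski's lemma, abstract form -/
theorem minkowski_ring (htf : TF R) (q : ℕ) (hsep : Sep q R) (hq : q.Prime) (hq2 : q ≠ 2)
    (φ : R) (n : ℕ) (hn : n ≠ 0) (hφ : φ ^ n = 1) (h1 : ∃ M : R, φ = 1 + (q : R) * M) : φ = 1 := by
  have hodd : Odd q := hq.odd_of_ne_two hq2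
  obtain ⟨a, m, hm, hnm⟩ := Nat.exists_eq_pow_mul_and_not_dvd hn q hq.ne_one
  -- every power of φ is 1 mod q
  have hpow : ∀ m : ℕ, ∃ M : R, φ ^ m = 1 + (q : R) * M := by
    obtain ⟨M, hM⟩ := h1
    intro m
    induction m with
    | zero => exact ⟨0, by simp⟩
    | succ m ih =>
      obtain ⟨M', hM'⟩ := ih
      refine ⟨M + M' * φ, ?_⟩
      rw [pow_succ, hM', add_mul, one_mul, mul_add, ← add_assoc, ← hM, mul_assoc]
  -- powers of q
  have hq_part : ∀ a : ℕ, ∀ ψ : R, (∀ m, ∃ M : R, ψ ^ m = 1 + (q : R) * M) → ψ ^ q ^ a = 1 → ψ = 1 := by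
    intro a
    induction a with
    | zero => intro ψ _ h; simpa using h
    | succ a ih =>
      intro ψ hψ h
      apply ih ψ hψ
      have h2 : (ψ ^ q ^ a) ^ q = 1 := by rw [← pow_mul, ← pow_succ]; exact h
      exact all_steps q hsep _ (fun j M hM => q_step htf q hq hodd _ h2 j M hM) (hψ _)
  have h2 : (φ ^ q ^ a) ^ m = 1 := by rw [← pow_mul, ← hnm]; exact hφ
  have h3 : φ ^ q ^ a = 1 :=
    all_steps q hsep _ (fun j M hM => coprime_step htf q hq m hm _ h2 j M hM) (hpow _)
  exact hq_part a φ hpow h3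

end tf

section lattice

variable {L : Type*} [AddCommGroup L] [Module.Free ℤ L] [Module.Finite ℤ L]

omit [Module.Finite ℤ L] [Module.Free ℤ L] in
lemma int_cast_apply (c : ℤ) (v : L) : (c : Module.End ℤ L) v = c • v := by
  rw [← zsmul_one c, LinearMap.smul_apply, Module.End.one_apply]

omit [Module.Finite ℤ L] in
lemma exists_div (q : ℤ) (ψ : Module.End ℤ L) (h : ∀ v, ∃ w, ψ v = q • w) :
    ∃ M : Module.End ℤ L, ψ = (q : Module.End ℤ L) * M := by
  classical
  choose w hw using h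
  let b := Module.Free.chooseBasis ℤ L
  refine ⟨b.constr ℤ (fun i => w (b i)), b.ext (fun i => ?_)⟩
  rw [Module.End.mul_apply, Module.Basis.constr_basis, hw, int_cast_apply]

omit [Module.Finite ℤ L] [Module.Free ℤ L] in
lemma nat_mul_apply (n : ℕ) (φ : Module.End ℤ L) (v : L) :
    ((n : Module.End ℤ L) * φ) v = (n : ℤ) • φ v := by
  rw [← nsmul_eq_mul]
  simp

omit [Module.Finite ℤ L] in
lemma tf_end : TF (Module.End ℤ L) := by
  intro n φ hn h
  apply LinearMap.ext
  intro v
  have h1 := congrArg (fun f : Module.End ℤ L => f v) h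
  simp only [nat_mul_apply, LinearMap.zero_apply] at h1
  rcases smul_eq_zero.mp h1 with h2 | h2
  · exact absurd (by exact_mod_cast h2) hn
  · simpa using h2

omit [Module.Finite ℤ L] in
lemma eq_zero_of_forall_pow_dvd (q : ℕ) (hq : q.Prime) (v : L)
    (h : ∀ j : ℕ, ∃ w : L, v = ((q : ℤ) ^ j) • w) : v = 0 := by
  classical
  let b := Module.Free.chooseBasis ℤ L
  apply b.repr.injective
  rw [map_zero]
  ext i
  rw [Finsupp.zero_apply]
  by_contra hne
  have hdvd : ∀ j : ℕ, (q : ℤ) ^ j ∣ b.repr v i := by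
    intro j
    obtain ⟨w, hw⟩ := h j
    refine ⟨b.repr w i, ?_⟩
    conv_lhs => rw [hw]
    simp
  have h1 : ∀ j : ℕ, q ^ j ≤ (b.repr v i).natAbs := by
    intro j
    apply Nat.le_of_dvd (Int.natAbs_pos.mpr hne)
    have := Int.natAbs_dvd_natAbs.mpr (hdvd j)
    simpa [Int.natAbs_pow] using this
  have h2 := h1 (b.repr v i).natAbs
  exact absurd h2 (not_le.mpr (Nat.lt_pow_self hq.one_lt))

omit [Module.Finite ℤ L] in
lemma sep_end (q : ℕ) (hq : q.Prime) : Sep q (Module.End ℤ L) := by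
  intro φ h
  apply LinearMap.ext
  intro v
  rw [LinearMap.zero_apply]
  apply eq_zero_of_forall_pow_dvd q hq
  intro j
  obtain ⟨y, hy⟩ := h j
  refine ⟨y v, ?_⟩
  rw [hy, ← Nat.cast_pow, nat_mul_apply]
  push_cast
  rfl

omit [Module.Finite ℤ L] in
/-- Minkowski's lemma: an automorphism of finite order of a free abelian group that is trivial
modulo an odd prime is trivial. -/
theorem minkowski (q : ℕ) (hq : q.Prime) (hq2 : q ≠ 2) (φ : Module.End ℤ L) (n : ℕ) (hn : n ≠ 0)
    (hφ : φ ^ n = 1) (h : ∀ v, ∃ w, φ v = v + (q : ℤ) • w) : φ = 1 := by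
  obtain ⟨M, hM⟩ := exists_div (q : ℤ) (φ - 1) (fun v => by
    obtain ⟨w, hw⟩ := h v
    exact ⟨w, by simp [hw]⟩)
  refine minkowski_ring tf_end q (sep_end q hq) hq hq2 φ n hn hφ ⟨M, ?_⟩
  rw [sub_eq_iff_eq_add] at hM
  rw [hM]
  push_cast
  abel

omit [Module.Finite ℤ L] in
/-- An endomorphism of finite order of a free abelian group that is scalar modulo an odd prime is
`1` or `-1`. -/
theorem scalar_eq (q : ℕ) (hq : q.Prime) (hq2 : q ≠ 2) (φ : Module.End ℤ L) (n : ℕ) (hn : n ≠ 0)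
    (hφ : φ ^ n = 1) (c : ℤ) (h : ∀ v, ∃ w, φ v = c • v + (q : ℤ) • w) : φ = 1 ∨ φ = -1 := by
  classical
  rcases subsingleton_or_nontrivial L with hL | hL
  · left
    exact LinearMap.ext (fun v => Subsingleton.elim _ _)
  obtain ⟨M, hM'⟩ := exists_div (q : ℤ) (φ - (c : Module.End ℤ L)) (fun v => by
    obtain ⟨w, hw⟩ := h v
    refine ⟨w, ?_⟩
    rw [LinearMap.sub_apply, hw, int_cast_apply]
    abel)
  have hM : φ = (c : Module.End ℤ L) + (q : Module.End ℤ L) * M := by
    rw [sub_eq_iff_eq_add] at hM'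
    rw [hM']
    push_cast
    abel
  let b := Module.Free.chooseBasis ℤ L
  obtain ⟨i₀⟩ : Nonempty (Module.Free.ChooseBasisIndex ℤ L) := b.index_nonempty
  -- congruences in coordinates
  have coord : ∀ (ψ : Module.End ℤ L) (d e : ℤ) (N : Module.End ℤ L),
      ψ = (d : Module.End ℤ L) + (e : Module.End ℤ L) * N →
      ∀ v, ψ v = d • v + e • N v := by
    intro ψ d e N hψ v
    rw [hψ, LinearMap.add_apply, Module.End.mul_apply, int_cast_apply, int_cast_apply]
  -- write n = q^a m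
  obtain ⟨a, m, hm, hnm⟩ := Nat.exists_eq_pow_mul_and_not_dvd hn q hq.ne_one
  -- φ^m = c^m mod q
  have hpow : ∀ m : ℕ, ∃ N : Module.End ℤ L,
      φ ^ m = ((c ^ m : ℤ) : Module.End ℤ L) + ((q : ℤ) : Module.End ℤ L) * N := by
    intro m
    induction m with
    | zero => exact ⟨0, by simp⟩
    | succ m ih =>
      obtain ⟨N, hN⟩ := ih
      refine ⟨((c ^ m : ℤ) : Module.End ℤ L) * M + N * φ, ?_⟩
      have e : ((c ^ m : ℤ) : Module.End ℤ L) * φ = ((c ^ (m + 1) : ℤ) : Module.End ℤ L)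
          + ((q : ℤ) : Module.End ℤ L) * (((c ^ m : ℤ) : Module.End ℤ L) * M) := by
        conv_lhs => rw [hM]
        push_cast
        rw [mul_add, pow_succ, ← mul_assoc, ← mul_assoc,
          (Nat.cast_commute q ((c : Module.End ℤ L) ^ m)).eq]
      rw [pow_succ φ m, hN, add_mul, e, mul_add, mul_assoc]
      abel
  -- c^m = 1 mod q
  have hfer : ∀ (x : ℤ) (k : ℕ), (q : ℤ) ∣ x ^ q ^ k - x := by
    intro x k
    have := Fact.mk hq
    have : ((x ^ q ^ k - x : ℤ) : ZMod q) = 0 := by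
      push_cast
      rw [ZMod.pow_card_pow, sub_self]
    exact (ZMod.intCast_zmod_eq_zero_iff_dvd _ q).mp this
  have hcn : (q : ℤ) ∣ c ^ n - 1 := by
    obtain ⟨N, hN⟩ := hpow n
    rw [hφ] at hN
    have h1 := coord 1 (c ^ n) q N hN (b i₀)
    have h2 := congrArg (fun v => b.repr v i₀) h1
    simp only [Module.End.one_apply, map_add, map_smul, Finsupp.add_apply, Finsupp.smul_apply,
      Module.Basis.repr_self, Finsupp.single_eq_same, smul_eq_mul, mul_one] at h2
    exact ⟨-(b.repr (N (b i₀)) i₀), by linarith⟩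
  have hcm : (q : ℤ) ∣ c ^ m - 1 := by
    have h1 := hfer (c ^ m) a
    rw [← pow_mul, mul_comm, ← hnm] at h1
    have := dvd_sub hcn h1
    simpa using this
  -- φ^m = 1
  have hφm : φ ^ m = 1 := by
    refine minkowski q hq hq2 (φ ^ m) n hn (by rw [← pow_mul, mul_comm, pow_mul, hφ, one_pow]) ?_
    intro v
    obtain ⟨N, hN⟩ := hpow m
    obtain ⟨e, he⟩ := hcm
    refine ⟨e • v + N v, ?_⟩
    rw [coord _ _ _ N hN v]
    have : c ^ m = 1 + q * e := by linarith
    rw [this, add_smul, one_smul, mul_smul, smul_add]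
    abel
  have hm0 : m ≠ 0 := by
    rintro rfl
    exact hm (dvd_zero q)
  -- for arbitrarily large k, φ is scalar mod q^(k+1)
  have hcop : Nat.Coprime q m := (Nat.Prime.coprime_iff_not_dvd hq).mpr hm
  have big : ∀ j : ℕ, ∃ d : ℤ, ∃ N : Module.End ℤ L,
      φ = (d : Module.End ℤ L) + (((q : ℤ) ^ j : ℤ) : Module.End ℤ L) * N := by
    intro j
    set k := j * Nat.totient m with hk
    have hkj : j ≤ k := by
      rw [hk]
      exact Nat.le_mul_of_pos_right j (Nat.totient_pos.mpr (Nat.pos_of_ne_zero hm0))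
    have hqk : φ ^ q ^ k = φ := by
      have h1 : q ^ k ≡ 1 [MOD m] := by
        have := (Nat.ModEq.pow_totient hcop).pow j
        rw [← pow_mul, mul_comm, one_pow] at this
        exact this
      have h3 : 1 ≤ q ^ k := Nat.one_le_pow _ _ hq.pos
      obtain ⟨e, he⟩ := (Nat.modEq_iff_dvd' h3).mp h1.symm
      have h2 : q ^ k = 1 + m * e := by omega
      rw [h2, pow_add, pow_one, pow_mul, hφm, one_pow, mul_one]
    obtain ⟨N, hN⟩ := pow_sub_pow q c M k
    rw [← hM, hqk] at hN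
    refine ⟨c ^ q ^ k, (q : Module.End ℤ L) ^ (k + 1 - j) * N, ?_⟩
    rw [← mul_assoc]
    push_cast
    rw [← pow_add, show j + (k + 1 - j) = k + 1 by omega]
    exact hN
  -- hence φ is a scalar
  set d := b.repr (φ (b i₀)) i₀ with hd
  have hscal : ∀ i, φ (b i) = d • b i := by
    intro i
    rw [← sub_eq_zero]
    apply eq_zero_of_forall_pow_dvd q hq
    intro j
    obtain ⟨d', N, hN⟩ := big j
    have h1 := coord _ _ _ N hN (b i)
    have h2 := congrArg (fun v => b.repr v i₀) (coord _ _ _ N hN (b i₀))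
    simp only [map_add, map_smul, Finsupp.add_apply, Finsupp.smul_apply,
      Module.Basis.repr_self, Finsupp.single_eq_same, smul_eq_mul, mul_one] at h2
    rw [← hd] at h2
    refine ⟨N (b i) - (b.repr (N (b i₀)) i₀) • b i, ?_⟩
    rw [h1, h2, add_smul, smul_sub, mul_smul]
    abel
  have hφd : φ = (d : Module.End ℤ L) := by
    apply b.ext
    intro i
    rw [hscal i, int_cast_apply]
  have hdn : d ^ n = 1 := by
    rw [hφd, ← Int.cast_pow] at hφ
    have h1 := congrArg (fun f : Module.End ℤ L => b.repr (f (b i₀)) i₀) hφ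
    simp only [int_cast_apply, Module.End.one_apply, map_smul, Finsupp.smul_apply,
      Module.Basis.repr_self, Finsupp.single_eq_same, smul_eq_mul, mul_one] at h1
    exact h1
  have hdu : IsUnit d := IsUnit.of_pow_eq_one hdn hn
  rcases Int.isUnit_iff.mp hdu with h1 | h1
  · left; rw [hφd, h1]; simp
  · right; rw [hφd, h1]; simp

end lattice

end Pool.Agent.MP_b7b920_al.H80
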