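import Mathlib
import Pool.Agent.Lib.MP_b7b920_al_h80.Minkowski
import Pool.Agent.Lib.MP_b7b920_al_h19.HomCount
import Pool.Agent.Lib.MP_b7b920_al_helper12.RGL
import Pool.Agent.Lib.MP_b7b920_al_CT.Defs

/-!
Step 4 of the crystallographic theorem for MP_b7b920_al: generation modulo `q L` for a prime `q`
different from `p`.
-/

set_option autoImplicit false

namespace Pool.Agent.MP_b7b920_al.H80

open Pool.B7h12 Multiplicative

universe u v w

section

variable {Γ : Type u} [Group Γ] {L : Type v} [AddCommGroup L] [DistribMulAction Γ L]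

/-- the endomorphism given by a group element -/
def act (L : Type v) [AddCommGroup L] [DistribMulAction Γ L] (g : Γ) : Module.End ℤ L :=
  (DistribSMul.toAddMonoidHom L g).toIntLinearMap

@[simp] lemma act_apply (g : Γ) (v : L) : act L g v = g • v := rfl

lemma act_pow (g : Γ) (n : ℕ) : act L g ^ n = act L (g ^ n) := by
  apply LinearMap.ext
  intro v
  induction n with
  | zero => simp
  | succ n ih =>
    rw [pow_succ', Module.End.mul_apply, ih, act_apply, act_apply, act_apply, pow_succ', mul_smul]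

variable (ι : Multiplicative L →* Γ)

/-- the subgroup `ι (q L)` -/
def qlat (q : ℕ) : Subgroup Γ := (ι.comp (powMonoidHom q)).range

omit [DistribMulAction Γ L] in
lemma mem_qlat {q : ℕ} {g : Γ} : g ∈ qlat ι q ↔ ∃ v : L, ι (ofAdd ((q : ℤ) • v)) = g := by
  constructor
  · rintro ⟨x, hx⟩
    refine ⟨toAdd x, ?_⟩
    rw [← hx]
    simp only [MonoidHom.comp_apply, powMonoidHom_apply]
    congr 1
    rw [natCast_zsmul, ofAdd_nsmul]
    rfl
  · rintro ⟨v, hv⟩
    refine ⟨ofAdd v, ?_⟩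
    rw [← hv]
    simp only [MonoidHom.comp_apply, powMonoidHom_apply]
    congr 1
    rw [natCast_zsmul, ofAdd_nsmul]

variable {ι}
variable (hconj : ∀ (g : Γ) (v : L), g * ι (ofAdd v) * g⁻¹ = ι (ofAdd (g • v)))
include hconj

lemma range_normal : ι.range.Normal := by
  constructor
  rintro _ ⟨x, rfl⟩ g
  exact ⟨ofAdd (g • toAdd x), (hconj g (toAdd x)).symm⟩

lemma qlat_normal (q : ℕ) : (qlat ι q).Normal := by
  constructor
  intro n hn g
  obtain ⟨v, rfl⟩ := (mem_qlat ι).mp hn
  rw [hconj, smul_comm]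
  exact (mem_qlat ι).mpr ⟨_, rfl⟩

omit [DistribMulAction Γ L] hconj in
lemma qlat_le (q : ℕ) : qlat ι q ≤ ι.range := by
  rintro _ ⟨x, rfl⟩
  exact ⟨_, rfl⟩

lemma range_act_trivial (hι : Function.Injective ι) (x v : L) : ι (ofAdd x) • v = v := by
  have h := hconj (ι (ofAdd x)) v
  have h1 : ι (ofAdd x) * ι (ofAdd v) * (ι (ofAdd x))⁻¹ = ι (ofAdd v) := by
    rw [← map_mul, mul_comm, map_mul, mul_inv_cancel_right]
  rw [h1] at h
  exact (ofAdd.injective (hι h)).symm

end

section chief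

variable {Γ : Type u} [Group Γ] {L : Type v} [AddCommGroup L] [DistribMulAction Γ L]
  {ι : Multiplicative L →* Γ}
  (hconj : ∀ (g : Γ) (v : L), g * ι (ofAdd v) * g⁻¹ = ι (ofAdd (g • v)))
  {M : Type w} [AddCommGroup M] [DistribMulAction Γ M] {q : ℕ}
  (c : ChiefFactor Γ M (qlat ι q) ι.range)

include c in
omit [DistribMulAction Γ L] in
lemma chief_triv (x : L) (m : M) : ι (ofAdd x) • m = m := by
  obtain ⟨n, hn⟩ := c.surj (ofAdd m)
  have h := c.conj (ι (ofAdd x)) n
  obtain ⟨y, hy⟩ := c.le' n.2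
  have h1 : (⟨ι (ofAdd x) * n * (ι (ofAdd x))⁻¹, c.normal.conj_mem _ n.2 _⟩ : c.N₁) = n := by
    apply Subtype.ext
    show ι (ofAdd x) * n * (ι (ofAdd x))⁻¹ = n
    rw [← hy, ← map_mul, mul_comm, map_mul, mul_inv_cancel_right]
  rw [h1, hn] at h
  exact (ofAdd.injective h).symm

include c in
omit [DistribMulAction Γ L] in
lemma chief_q (m : M) : q • m = 0 := by
  obtain ⟨n, hn⟩ := c.surj (ofAdd m)
  obtain ⟨y, hy⟩ := c.le' n.2
  have h1 : c.φ (n ^ q) = 1 := by
    apply c.ker
    refine ⟨y, ?_⟩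
    simp only [MonoidHom.comp_apply, powMonoidHom_apply, map_pow, hy, Subgroup.coe_pow]
  rw [map_pow, hn, ← ofAdd_nsmul] at h1
  exact ofAdd.injective h1

/-- the relation between the lattice and the chief factor, as an additive subgroup of the product -/
def rel : AddSubgroup (L × M) where
  carrier := {x | ∃ h : ι (ofAdd x.1) ∈ c.N₁, c.φ ⟨ι (ofAdd x.1), h⟩ = ofAdd x.2}
  add_mem' := by
    rintro ⟨a, b⟩ ⟨a', b'⟩ ⟨h, h1⟩ ⟨h', h1'⟩
    have h2 : ι (ofAdd (a + a')) = ι (ofAdd a) * ι (ofAdd a') := by rw [ofAdd_add, map_mul]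
    refine ⟨by simpa [h2] using mul_mem h h', ?_⟩
    have h3 : (⟨ι (ofAdd (a + a')), by simpa [h2] using mul_mem h h'⟩ : c.N₁)
        = ⟨ι (ofAdd a), h⟩ * ⟨ι (ofAdd a'), h'⟩ := Subtype.ext h2
    show c.φ ⟨ι (ofAdd (a + a')), _⟩ = ofAdd (b + b')
    rw [h3, map_mul, h1, h1', ofAdd_add]
  zero_mem' := by
    refine ⟨by simp, ?_⟩
    have : (⟨ι (ofAdd (0 : L × M).1), by simp⟩ : c.N₁) = 1 := Subtype.ext (by simp)
    rw [this, map_one]
    rfl
  neg_mem' := by
    rintro ⟨a, b⟩ ⟨h, h1⟩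
    have h2 : ι (ofAdd (-a)) = (ι (ofAdd a))⁻¹ := by rw [ofAdd_neg, map_inv]
    refine ⟨by simpa [h2] using h, ?_⟩
    have h3 : (⟨ι (ofAdd (-a)), by simpa [h2] using h⟩ : c.N₁) = (⟨ι (ofAdd a), h⟩)⁻¹ :=
      Subtype.ext h2
    show c.φ ⟨ι (ofAdd (-a)), _⟩ = ofAdd (-b)
    rw [h3, map_inv, h1, ofAdd_neg]

omit [DistribMulAction Γ L] in
lemma rel_zero {m : M} (h : ((0 : L), m) ∈ rel c) : m = 0 := by
  obtain ⟨h1, h2⟩ := h
  have : (⟨ι (ofAdd ((0 : L), m).1), h1⟩ : c.N₁) = 1 := Subtype.ext (by simp)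
  rw [this, map_one] at h2
  exact (ofAdd.injective h2).symm

include hconj in
lemma rel_smul {v : L} {m : M} (h : (v, m) ∈ rel c) (g : Γ) : (g • v, g • m) ∈ rel c := by
  obtain ⟨h1, h2⟩ := h
  have h3 := c.conj g ⟨ι (ofAdd v), h1⟩
  have h4 : g * ι (ofAdd v) * g⁻¹ = ι (ofAdd (g • v)) := hconj g v
  have h5 : ι (ofAdd (g • v)) ∈ c.N₁ := by
    rw [← h4]; exact c.normal.conj_mem _ h1 g
  refine ⟨h5, ?_⟩
  have h6 : (⟨ι (ofAdd (g • v)), h5⟩ : c.N₁)
      = ⟨g * ι (ofAdd v) * g⁻¹, c.normal.conj_mem _ h1 g⟩ := Subtype.ext h4.symm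
  show c.φ ⟨ι (ofAdd (g • v)), _⟩ = ofAdd (g • m)
  rw [h6, h3, h2]
  rfl

omit [DistribMulAction Γ L] in
lemma rel_exists (m : M) : ∃ v : L, (v, m) ∈ rel c := by
  obtain ⟨n, hn⟩ := c.surj (ofAdd m)
  obtain ⟨y, hy⟩ := c.le' n.2
  have h1 : ι (ofAdd (toAdd y)) ∈ c.N₁ := by
    rw [ofAdd_toAdd, hy]; exact n.2
  refine ⟨toAdd y, h1, ?_⟩
  have : (⟨ι (ofAdd (toAdd y)), h1⟩ : c.N₁) = n := Subtype.ext hy
  rw [this, hn]

section fix

variable [Module.Free ℤ L] [Module.Finite ℤ L] [Finite M]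

include hconj c in
omit [Module.Free ℤ L] [Module.Finite ℤ L] [Finite M] in
lemma chief_fix (hι : Function.Injective ι) (hfin : ι.range.index ≠ 0)
    (p : ℕ) (hp : p.Prime) (A : Subgroup Γ) (hAp : ∀ a ∈ A, ∃ k, a ^ p ^ k ∈ ι.range)
    (hA0 : ∀ v : L, (∀ a ∈ A, a • v = v) → v = 0) (hq : q.Prime) (hqp : q ≠ p)
    (m : M) (hm : ∀ a ∈ A, a • m = m) : m = 0 := by
  classical
  have := Fact.mk hp
  obtain ⟨v, hv⟩ := rel_exists c m
  let ρ : Γ →* Equiv.Perm L := MulAction.toPermHom Γ L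
  have hρ : ∀ (g : Γ) (x : L), ρ g x = g • x := fun g x => rfl
  have hker : ι.range ≤ ρ.ker := by
    rintro _ ⟨x, rfl⟩
    rw [MonoidHom.mem_ker]
    ext y
    rw [hρ]
    exact range_act_trivial hconj hι (toAdd x) y
  have h1 : ρ.ker.index ≠ 0 := fun h => hfin (by
    have := Subgroup.index_dvd_of_le hker
    rw [h] at this
    exact Nat.eq_zero_of_zero_dvd this)
  rw [Subgroup.index_ker] at h1
  have hfr : Finite ρ.range := Nat.finite_of_card_ne_zero h1
  let ρA : A →* Equiv.Perm L := ρ.comp A.subtype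
  have hle : ρA.range ≤ ρ.range := by
    rintro _ ⟨a, rfl⟩
    exact ⟨a, rfl⟩
  have hfA : Finite ρA.range := Finite.of_injective _ (Subgroup.inclusion_injective hle)
  have hpg : IsPGroup p ρA.range := by
    rintro ⟨_, a, rfl⟩
    obtain ⟨k, hk⟩ := hAp a a.2
    refine ⟨k, Subtype.ext ?_⟩
    have h2 : ρ ((a : Γ) ^ p ^ k) = 1 := MonoidHom.mem_ker.mp (hker hk)
    rw [map_pow] at h2
    exact h2
  obtain ⟨k, hk⟩ := IsPGroup.iff_card.mp hpg
  have : Fintype ρA.range := Fintype.ofFinite _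
  let S : L := ∑ r : ρA.range, (r : Equiv.Perm L) v
  have hS0 : S = 0 := by
    apply hA0
    intro a ha
    have h2 : ρA ⟨a, ha⟩ ∈ ρA.range := ⟨_, rfl⟩
    have h3 : a • S = ∑ r : ρA.range, ((⟨ρA ⟨a, ha⟩, h2⟩ * r : ρA.range) : Equiv.Perm L) v := by
      rw [Finset.smul_sum]
      rfl
    rw [h3]
    exact Fintype.sum_equiv (Equiv.mulLeft _) _ _ (fun r => rfl)
  have hmem : (S, Nat.card ρA.range • m) ∈ rel c := by
    have h2 : (S, Nat.card ρA.range • m) = ∑ r : ρA.range, ((r : Equiv.Perm L) v, m) := by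
      rw [Prod.ext_iff]
      refine ⟨?_, ?_⟩
      · rw [Prod.fst_sum]
      · rw [Prod.snd_sum, Finset.sum_const, Finset.card_univ, Nat.card_eq_fintype_card]
    rw [h2]
    apply sum_mem
    rintro ⟨_, a, rfl⟩ -
    have h3 := rel_smul hconj c hv (a : Γ)
    rw [hm a a.2] at h3
    exact h3
  rw [hS0] at hmem
  have h4 : Nat.card ρA.range • m = 0 := rel_zero c hmem
  rw [hk] at h4
  have h5 : q • m = 0 := chief_q c m
  have hcop : Nat.Coprime (p ^ k) q :=
    Nat.Coprime.pow_left k ((Nat.coprime_primes hp hq).mpr (Ne.symm hqp))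
  have h6 : addOrderOf m ∣ Nat.gcd (p ^ k) q :=
    Nat.dvd_gcd (addOrderOf_dvd_of_nsmul_eq_zero h4) (addOrderOf_dvd_of_nsmul_eq_zero h5)
  rw [hcop.gcd_eq_one, Nat.dvd_one, AddMonoid.addOrderOf_eq_one_iff] at h6
  exact h6

end fix

end chief

section inner

variable {Γ : Type u} [Group Γ] {M : Type w} [AddCommGroup M] [DistribMulAction Γ M]

/-- a derivation which vanishes on `N` is inner, if a normal subgroup `A` that is a `p`-group modulo
`N` has no fixed points on `M` and `|M|` is prime to `p`. -/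
lemma der_inner (N : Subgroup Γ) (hN : ∀ n ∈ N, ∀ m : M, n • m = m)
    (p : ℕ) (hp : p.Prime) (hM : ¬ p ∣ Nat.card M)
    (A : Subgroup Γ) (hA : A.Normal) (hAp : ∀ a ∈ A, ∃ k, a ^ p ^ k ∈ N)
    (hfix : ∀ m : M, (∀ a ∈ A, a • m = m) → m = 0)
    (d : Γ → M) (hd : ∀ g h, d (g * h) = d g + g • d h) (hdN : ∀ n ∈ N, d n = 0) :
    ∃ w : M, ∀ g, d g = w - g • w := by
  classical
  have := Fact.mk hp
  have hd1 : d 1 = 0 := by
    have := hd 1 1
    simpa using this
  let f : A →* Equiv.Perm M :=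
    { toFun := fun a =>
        { toFun := fun m => (a : Γ) • m + d a
          invFun := fun m => (a : Γ)⁻¹ • (m - d a)
          left_inv := fun m => by simp
          right_inv := fun m => by simp }
      map_one' := by
        ext m
        simp [hd1]
      map_mul' := by
        intro a b
        ext m
        show ((a : Γ) * b) • m + d ((a : Γ) * b) = (a : Γ) • ((b : Γ) • m + d b) + d a
        rw [hd, mul_smul, smul_add]
        abel }
  have hf : ∀ (a : A) (m : M), f a m = (a : Γ) • m + d a := fun _ _ => rfl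
  have hpg : IsPGroup p f.range := by
    rintro ⟨_, a, rfl⟩
    obtain ⟨k, hk⟩ := hAp a a.2
    refine ⟨k, Subtype.ext ?_⟩
    show (f a) ^ p ^ k = 1
    rw [← map_pow]
    ext m
    rw [hf]
    show ((a : Γ) ^ p ^ k) • m + d ((a : Γ) ^ p ^ k) = m
    rw [hN _ hk, hdN _ hk, add_zero]
  obtain ⟨w, hw⟩ := hpg.nonempty_fixed_point_of_prime_not_dvd_card M hM
  have hwA : ∀ a ∈ A, a • w + d a = w := by
    intro a ha
    have := hw ⟨f ⟨a, ha⟩, ⟨_, rfl⟩⟩
    exact this
  refine ⟨w, fun g => ?_⟩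
  -- the difference vanishes on `A`
  have hzero : d g - (w - g • w) = 0 := by
    apply hfix
    intro a ha
    have hb : g⁻¹ * a * g ∈ A := by
      have := hA.conj_mem a ha g⁻¹
      simpa using this
    have h1 : a * g = g * (g⁻¹ * a * g) := by group
    have h2 : d (a * g) = d g + g • d (g⁻¹ * a * g) := by rw [h1, hd]
    rw [hd] at h2
    have h3 : d a = w - a • w := eq_sub_of_add_eq' (hwA a ha)
    have h4 : d (g⁻¹ * a * g) = w - (g⁻¹ * a * g) • w := eq_sub_of_add_eq' (hwA _ hb)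
    rw [h3, h4, smul_sub, smul_smul, ← h1] at h2
    rw [smul_sub, smul_sub, smul_smul]
    have h5 : a • d g = d g + (g • w - (a * g) • w) - (w - a • w) := by
      rw [← h2]; abel
    rw [h5]
    abel
  exact sub_eq_zero.mp hzero

end inner

section count

variable {Γ : Type u} [Group Γ] {L : Type v} [AddCommGroup L] [DistribMulAction Γ L]
  {M : Type w} [AddCommGroup M] [DistribMulAction Γ M]

/-- the equivariant homomorphisms -/
def EqHom (Γ : Type u) [Group Γ] (L : Type v) [AddCommGroup L] [DistribMulAction Γ L]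
    (M : Type w) [AddCommGroup M] [DistribMulAction Γ M] : AddSubgroup (L →+ M) where
  carrier := {f | ∀ (g : Γ) (v : L), f (g • v) = g • f v}
  add_mem' := by
    intro a b ha hb g v
    rw [AddMonoidHom.add_apply, ha, hb, AddMonoidHom.add_apply, smul_add]
  zero_mem' := by
    intro g v
    simp
  neg_mem' := by
    intro a ha g v
    rw [AddMonoidHom.neg_apply, ha, AddMonoidHom.neg_apply, smul_neg]

lemma mem_eqHom {f : L →+ M} : f ∈ EqHom Γ L M ↔ ∀ (g : Γ) (v : L), f (g • v) = g • f v :=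
  Iff.rfl

/-- restriction of derivations to the lattice -/
lemma der_restrict {ι : Multiplicative L →* Γ}
    (hconj : ∀ (g : Γ) (v : L), g * ι (ofAdd v) * g⁻¹ = ι (ofAdd (g • v)))
    (htriv : ∀ (v : L) (m : M), ι (ofAdd v) • m = m)
    (d : Γ → M) (hd : ∀ g h, d (g * h) = d g + g • d h) :
    ∃ f : L →+ M, f ∈ EqHom Γ L M ∧ ∀ v, f v = d (ι (ofAdd v)) := by
  refine ⟨AddMonoidHom.mk' (fun v => d (ι (ofAdd v))) ?_, ?_, fun v => rfl⟩
  · intro a b
    rw [ofAdd_add, map_mul, hd, htriv]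
  · intro g v
    have hd1 : d 1 = 0 := by
      have := hd 1 1
      simpa using this
    have h1 : d (g * g⁻¹) = d g + g • d g⁻¹ := hd g g⁻¹
    rw [mul_inv_cancel, hd1] at h1
    show d (ι (ofAdd (g • v))) = g • d (ι (ofAdd v))
    rw [← hconj, hd, hd, mul_smul, htriv' htriv g v]
    rw [add_right_comm, ← h1, zero_add]
  where
    htriv' (htriv : ∀ (v : L) (m : M), ι (ofAdd v) • m = m) (g : Γ) (v : L) :
      g • ι (ofAdd v) • d g⁻¹ = g • d g⁻¹ := by rw [htriv]

lemma card_der_le {ι : Multiplicative L →* Γ}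
    (hconj : ∀ (g : Γ) (v : L), g * ι (ofAdd v) * g⁻¹ = ι (ofAdd (g • v)))
    (htriv : ∀ (v : L) (m : M), ι (ofAdd v) • m = m)
    (hinner : ∀ d : Γ → M, (∀ g h, d (g * h) = d g + g • d h) → (∀ v, d (ι (ofAdd v)) = 0) →
      ∃ w : M, ∀ g, d g = w - g • w)
    [Finite M] [Finite (EqHom Γ L M)] (S : Set Γ) :
    (Der Γ M S).ncard ≤ Nat.card M * Nat.card (EqHom Γ L M) := by
  classical
  choose! F hF1 hF2 using fun (d : Γ → M) (hd : ∀ g h, d (g * h) = d g + g • d h) =>
    der_restrict hconj htriv d hd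
  -- choose representatives
  let P : EqHom Γ L M → Prop := fun f => ∃ d : Γ → M, (∀ g h, d (g * h) = d g + g • d h) ∧ F d = f
  have hrep : ∀ f : EqHom Γ L M, ∃ d : Γ → M, P f → ((∀ g h, d (g * h) = d g + g • d h) ∧ F d = f) := by
    intro f
    by_cases h : P f
    · obtain ⟨d, hd⟩ := h
      exact ⟨d, fun _ => hd⟩
    · exact ⟨0, fun h' => absurd h' h⟩
  choose rep hrep using hrep
  have hw : ∀ d : Der Γ M S, ∃ w : M, ∀ g, d.1 g - rep ⟨F d.1, hF1 d.1 d.2.1⟩ g = w - g • w := by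
    intro d
    obtain ⟨h1, h2⟩ := hrep ⟨F d.1, hF1 d.1 d.2.1⟩ ⟨d.1, d.2.1, rfl⟩
    apply hinner (fun g => d.1 g - rep ⟨F d.1, hF1 d.1 d.2.1⟩ g)
    · intro g h
      rw [d.2.1, h1, smul_sub]
      abel
    · intro v
      show d.1 (ι (ofAdd v)) - rep ⟨F d.1, hF1 d.1 d.2.1⟩ (ι (ofAdd v)) = 0
      rw [← hF2 d.1 d.2.1, ← hF2 _ h1, h2, sub_self]
  choose W hW using hw
  let G : Der Γ M S → M × EqHom Γ L M := fun d => (W d, ⟨F d.1, hF1 d.1 d.2.1⟩)
  have hG : Function.Injective G := by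
    intro d d' h
    have h1 : W d = W d' := congrArg Prod.fst h
    have h2 : (⟨F d.1, hF1 d.1 d.2.1⟩ : EqHom Γ L M) = ⟨F d'.1, hF1 d'.1 d'.2.1⟩ :=
      congrArg Prod.snd h
    apply Subtype.ext
    funext g
    have h3 := hW d g
    have h4 := hW d' g
    rw [h1, h2, ← h4] at h3
    exact sub_left_injective h3
  have := Nat.card_le_card_of_injective G hG
  rwa [Nat.card_prod, Nat.card_coe_set_eq] at this

/-- the number of equivariant homomorphisms into a simple module is at most `q ^ s` -/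
lemma card_eqHom_le [Module.Free ℤ L] [Module.Finite ℤ L] [Finite M] [Nontrivial M]
    (hsimple : IsSimpleMod Γ M) (q : ℕ) [Fact q.Prime] (hqM : ∀ m : M, q • m = 0) :
    Finite (EqHom Γ L M) ∧ Nat.card (EqHom Γ L M) ≤ q ^ Module.finrank ℤ L := by
  obtain ⟨hf, -⟩ := Pool.MP_b7b920_al.H19.card_addHom_free (L := L) (A := M)
  obtain ⟨hf', hc'⟩ := Pool.MP_b7b920_al.H19.card_addHom_free (L := L) (A := ZMod q)
  refine ⟨inferInstance, ?_⟩
  have iM : Module (ZMod q) M := AddCommGroup.zmodModule hqM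
  obtain ⟨m₀, hm₀⟩ := exists_ne (0 : M)
  obtain ⟨lam, hlam⟩ : ∃ lam : M →ₗ[ZMod q] ZMod q, lam m₀ ≠ 0 := by
    by_contra hno
    push Not at hno
    exact hm₀ ((Module.forall_dual_apply_eq_zero_iff (ZMod q) m₀).mp hno)
  let Φ : EqHom Γ L M → (L →+ ZMod q) := fun f => lam.toAddMonoidHom.comp f.1
  have hΦ : Function.Injective Φ := by
    intro f f' h
    apply Subtype.ext
    rw [← sub_eq_zero]
    have hmem : f.1 - f'.1 ∈ EqHom Γ L M := sub_mem f.2 f'.2
    set k := f.1 - f'.1 with hk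
    have hlk : ∀ v, lam (k v) = 0 := by
      intro v
      have h1 := congrArg (fun φ : L →+ ZMod q => φ v) h
      simp only [Φ, AddMonoidHom.comp_apply, LinearMap.toAddMonoidHom_coe] at h1
      rw [hk, AddMonoidHom.sub_apply, map_sub, h1, sub_self]
    rcases hsimple k.range (by
      rintro g _ ⟨v, rfl⟩
      exact ⟨g • v, hmem g v⟩) with h1 | h1
    · ext v
      have : k v ∈ k.range := ⟨v, rfl⟩
      rw [h1, AddSubgroup.mem_bot] at this
      simpa using this
    · exfalso
      have : m₀ ∈ k.range := by rw [h1]; trivial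
      obtain ⟨v, hv⟩ := this
      exact hlam (by rw [← hv]; exact hlk v)
  have h1 := Nat.card_le_card_of_injective Φ hΦ
  rwa [hc', Nat.card_zmod] at h1

end count

section final

open Pool.MP_b7b920_al.CT

variable {Γ L : Type} [Group Γ] [AddCommGroup L] [Module.Free ℤ L]
  [Module.Finite ℤ L] [DistribMulAction Γ L] {ι : Multiplicative L →* Γ}

/-- `Γ` does not act by scalars modulo an odd prime, when the rank is at least two. -/
lemma not_all_scalar (hC : Cryst Γ L ι) (hs : 2 ≤ Module.finrank ℤ L) (q : ℕ) (hq : q.Prime)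
    (hq2 : q ≠ 2) : ¬ ∀ g : Γ, ∃ c : ℤ, ∀ v : L, ∃ w, g • v = c • v + (q : ℤ) • w := by
  classical
  intro h
  have hN : ι.range.Normal := hC.normal_range
  have hfi := hC.fin
  have hpm : ∀ g : Γ, ∀ v : L, g • v = v ∨ g • v = -v := by
    intro g v
    obtain ⟨c, hc⟩ := h g
    have h1 : act L g ^ ι.range.index = 1 := by
      rw [act_pow]
      apply LinearMap.ext
      intro x
      obtain ⟨y, hy⟩ : g ^ ι.range.index ∈ ι.range := Subgroup.pow_index_mem ι.range g
      rw [act_apply, ← hy]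
      exact hC.smul_iota (toAdd y) x
    rcases scalar_eq q hq hq2 (act L g) _ hfi.index_ne_zero h1 c hc with h2 | h2
    · left
      have := congrArg (fun f : Module.End ℤ L => f v) h2
      simpa using this
    · right
      have := congrArg (fun f : Module.End ℤ L => f v) h2
      simpa using this
  let b := Module.finBasis ℤ L
  let i0 : Fin (Module.finrank ℤ L) := ⟨0, by omega⟩
  let i1 : Fin (Module.finrank ℤ L) := ⟨1, by omega⟩
  have h01 : i0 ≠ i1 := by
    intro h
    have := congrArg Fin.val h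
    simp [i0, i1] at this
  have hU := hC.irr (AddSubgroup.zmultiples (b i0)) (by
    intro g u hu
    rcases hpm g u with h1 | h1
    · rw [h1]; exact hu
    · rw [h1]; exact neg_mem hu) (by
    intro h0
    have : b i0 ∈ AddSubgroup.zmultiples (b i0) := AddSubgroup.mem_zmultiples _
    rw [h0, AddSubgroup.mem_bot] at this
    exact b.ne_zero i0 this)
  have h1 := AddSubgroup.nsmul_index_mem (AddSubgroup.zmultiples (b i0)) (b i1)
  obtain ⟨k, hk⟩ := AddSubgroup.mem_zmultiples_iff.mp h1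
  have h2 := congrArg (fun v => b.repr v i1) hk
  simp only [map_zsmul, map_nsmul, Finsupp.smul_apply, Module.Basis.repr_self,
    Finsupp.single_eq_same, Finsupp.single_eq_of_ne h01.symm, smul_zero] at h2
  have h3 := hU.index_ne_zero
  simp at h2
  exact h3 (by exact_mod_cast h2.symm)

omit [Module.Finite ℤ L] in
/-- the fixed points of `A` on the lattice vanish -/
lemma fix_zero (hC : Cryst Γ L ι) (A : Subgroup Γ) [hAn : A.Normal] (hTA : ι.range < A)
    (v : L) (hv : ∀ a ∈ A, a • v = v) : v = 0 := by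
  by_contra hne
  let U : AddSubgroup L :=
    { carrier := {u | ∀ a ∈ A, a • u = u}
      add_mem' := by
        intro x y hx hy a ha
        rw [smul_add, hx a ha, hy a ha]
      zero_mem' := by
        intro a _
        simp
      neg_mem' := by
        intro x hx a ha
        rw [smul_neg, hx a ha] }
  have hU := hC.irr U (by
    intro g u hu a ha
    have hb : g⁻¹ * a * g ∈ A := by
      have := hAn.conj_mem a ha g⁻¹
      simpa using this
    have h1 := hu _ hb
    rw [smul_smul, show a * g = g * (g⁻¹ * a * g) by group, mul_smul, h1]) (by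
    intro h0
    apply hne
    have : v ∈ U := hv
    rw [h0, AddSubgroup.mem_bot] at this
    exact this)
  apply hTA.not_ge
  intro a ha
  apply hC.self
  intro w
  have h1 : U.index • w ∈ U := AddSubgroup.nsmul_index_mem U w
  have h2 : a • (U.index • w) = U.index • w := h1 a ha
  have h3 : U.index • (a • w - w) = 0 := by
    rw [nsmul_sub, sub_eq_zero, ← h2]
    exact (map_nsmul (DistribSMul.toAddMonoidHom L a) U.index w).symm
  have h4 : ((U.index : ℕ) : ℤ) • (a • w - w) = 0 := by rw [natCast_zsmul]; exact h3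
  rcases smul_eq_zero.mp h4 with h5 | h5
  · exact absurd (by exact_mod_cast h5) hU.index_ne_zero
  · exact sub_eq_zero.mp h5

/-- if `M` has order `q`, then not all homomorphisms from the lattice to `M` are equivariant -/
lemma card_eqHom_lt (hC : Cryst Γ L ι) (hs : 2 ≤ Module.finrank ℤ L) (q : ℕ) (hq : q.Prime)
    {M : Type w} [AddCommGroup M] [DistribMulAction Γ M] [Finite M] (hM : Nat.card M = q)
    (hfix : ∀ m : M, (∀ g : Γ, g • m = m) → m = 0) :
    Nat.card (EqHom Γ L M) ≤ q ^ (Module.finrank ℤ L - 1) := by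
  classical
  have := Fact.mk hq
  obtain ⟨hf, hcard⟩ := Pool.MP_b7b920_al.H19.card_addHom_free (L := L) (A := M)
  rw [hM] at hcard
  have hdvd : Nat.card (EqHom Γ L M) ∣ q ^ Module.finrank ℤ L := by
    rw [← hcard]
    exact AddSubgroup.card_addSubgroup_dvd_card _
  obtain ⟨i, hi, hi'⟩ := (Nat.dvd_prime_pow hq).mp hdvd
  rcases hi.lt_or_eq with hlt | heq
  · rw [hi']
    exact Nat.pow_le_pow_right hq.pos (by omega)
  exfalso
  have htop : EqHom Γ L M = ⊤ := by
    apply AddSubgroup.eq_top_of_card_eq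
    rw [hi', heq, hcard]
  -- a generator
  have hnt : Nontrivial M := by
    rw [← Finite.one_lt_card_iff_nontrivial, hM]
    exact hq.one_lt
  obtain ⟨m₀, hm₀⟩ := exists_ne (0 : M)
  have hgen : ∀ m : M, ∃ n : ℤ, n • m₀ = m := by
    intro m
    exact AddSubgroup.mem_zmultiples_iff.mp (mem_zmultiples_of_prime_card hM hm₀)
  have hord : addOrderOf m₀ = q := addOrderOf_eq_prime
    (by rw [← hM]; exact card_nsmul_eq_zero') hm₀
  have hscal : ∀ g : Γ, ∃ c : ℤ, ∀ m : M, g • m = c • m := by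
    intro g
    obtain ⟨c, hc⟩ := hgen (g • m₀)
    refine ⟨c, fun m => ?_⟩
    obtain ⟨n, rfl⟩ := hgen m
    have : g • (n • m₀) = n • (g • m₀) := map_zsmul (DistribSMul.toAddMonoidHom M g) n m₀
    rw [this, ← hc, smul_comm]
  by_cases hq2 : q = 2
  · -- order two: everything is fixed
    apply hm₀
    apply hfix
    intro g
    by_contra hne
    have hg0 : g • m₀ ≠ 0 := by
      intro h
      apply hm₀
      have := congrArg (fun x => g⁻¹ • x) h
      simpa using this
    have h3 : ({0, m₀, g • m₀} : Finset M).card = 3 := by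
      rw [Finset.card_insert_of_notMem, Finset.card_insert_of_notMem, Finset.card_singleton]
      · simpa using fun h => hne h.symm
      · simp only [Finset.mem_insert, Finset.mem_singleton, not_or]
        exact ⟨fun h => hm₀ h.symm, fun h => hg0 h.symm⟩
    have : Fintype M := Fintype.ofFinite M
    have h4 := Finset.card_le_univ ({0, m₀, g • m₀} : Finset M)
    rw [← Nat.card_eq_fintype_card, hM, h3, hq2] at h4
    omega
  · apply not_all_scalar hC hs q hq hq2
    intro g
    obtain ⟨c, hc⟩ := hscal g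
    refine ⟨c, fun v => ?_⟩
    -- `g • v - c • v` is killed by all homomorphisms
    have hkill : ∀ f : L →+ M, f (g • v - c • v) = 0 := by
      intro f
      have hf : f ∈ EqHom Γ L M := by rw [htop]; trivial
      rw [map_sub, hf g v, hc, map_zsmul, sub_self]
    let b := Module.finBasis ℤ L
    have hdiv : ∀ i, (q : ℤ) ∣ b.repr (g • v - c • v) i := by
      intro i
      let f : L →+ M :=
        { toFun := fun x => (b.repr x i) • m₀
          map_zero' := by simp
          map_add' := by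
            intro x y
            simp [add_smul] }
      have h1 := hkill f
      have h2 : (b.repr (g • v - c • v) i) • m₀ = 0 := h1
      rw [← addOrderOf_dvd_iff_zsmul_eq_zero, hord] at h2
      exact h2
    choose e he using hdiv
    refine ⟨∑ i, e i • b i, ?_⟩
    rw [← sub_eq_iff_eq_add']
    rw [← b.sum_repr (g • v - c • v), Finset.smul_sum]
    apply Finset.sum_congr rfl
    intro i _
    rw [he i, mul_smul]

/-- the bound for the number of derivations needed in Step 4 -/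
lemma der_bound (hC : Cryst Γ L ι) (hs : 2 ≤ Module.finrank ℤ L) (p : ℕ) (hp : p.Prime)
    (A : Subgroup Γ) [hAn : A.Normal] (hTA : ι.range < A)
    (hAp : ∀ a ∈ A, ∃ k, a ^ p ^ k ∈ ι.range) (q : ℕ) (hq : q.Prime) (hqp : q ≠ p)
    {M : Type w} [AddCommGroup M] [DistribMulAction Γ M] [Finite M]
    (c : ChiefFactor Γ M (qlat ι q) ι.range) (S : Set Γ) :
    (Der Γ M S).ncard ≤ Nat.card M ^ Module.finrank ℤ L := by
  classical
  have := Fact.mk hq
  have hnt := c.nontriv
  have hqM := chief_q c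
  obtain ⟨hfin, hle⟩ := card_eqHom_le (Γ := Γ) (L := L) c.simple q hqM
  have hfixA : ∀ m : M, (∀ a ∈ A, a • m = m) → m = 0 := fun m hm =>
    chief_fix hC.conj c hC.inj hC.fin.index_ne_zero p hp A hAp (fix_zero hC A hTA) hq hqp m hm
  -- the order of `M`
  have iM : Module (ZMod q) M := AddCommGroup.zmodModule hqM
  have hcardM : Nat.card M = q ^ Module.finrank (ZMod q) M := by
    rw [Module.natCard_eq_pow_finrank (K := ZMod q), Nat.card_zmod]
  have hpos : 0 < Module.finrank (ZMod q) M := Module.finrank_pos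
  have hpM : ¬ p ∣ Nat.card M := by
    rw [hcardM]
    intro h
    exact hqp ((Nat.prime_dvd_prime_iff_eq hp hq).mp (hp.dvd_of_dvd_pow h)).symm
  have htriv : ∀ (v : L) (m : M), ι (ofAdd v) • m = m := chief_triv c
  have hcount := card_der_le (M := M) hC.conj htriv (by
    intro d hd hd0
    refine der_inner ι.range ?_ p hp hpM A hAn hAp hfixA d hd ?_
    · rintro _ ⟨x, rfl⟩ m
      exact htriv (toAdd x) m
    · rintro _ ⟨x, rfl⟩
      exact hd0 (toAdd x)) S
  refine hcount.trans ?_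
  obtain ⟨s, hs'⟩ : ∃ s, Module.finrank ℤ L = s + 2 := ⟨Module.finrank ℤ L - 2, by omega⟩
  have key : Nat.card (EqHom Γ L M) ≤ Nat.card M ^ (s + 1) := by
    rcases Nat.lt_or_ge 1 (Module.finrank (ZMod q) M) with h2 | h2
    · refine hle.trans ?_
      rw [hs', hcardM, ← pow_mul]
      apply Nat.pow_le_pow_right hq.pos
      nlinarith
    · have h1 : Module.finrank (ZMod q) M = 1 := by omega
      rw [h1, pow_one] at hcardM
      have := card_eqHom_lt hC hs q hq hcardM (fun m hm => hfixA m (fun a _ => hm a))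
      rw [hs'] at this
      rw [hcardM]
      exact this
  rw [hs', pow_succ' (Nat.card M) (s + 1)]
  exact Nat.mul_le_mul_left _ key

end final

end Pool.Agent.MP_b7b920_al.H80

namespace Pool.MP_b7b920_al.CT

open Module Pool.MP_b7b920_al.H19 Pool.Agent.MP_b7b920_al.H80

variable {Γ L : Type} [Group Γ] [Group.IsSolvable Γ] [AddCommGroup L] [Module.Free ℤ L]
  [Module.Finite ℤ L] [DistribMulAction Γ L] (ι : Multiplicative L →* Γ)

/-- Step 4 -/
theorem step4 (hC : Cryst Γ L ι) (hs : 2 ≤ finrank ℤ L) (p : ℕ) (hp : p.Prime)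
    (A : Subgroup Γ) [A.Normal] (hTA : ι.range < A) (hA : ∃ k, ι.range.relIndex A = p ^ k)
    (q : ℕ) (hq : q.Prime) (hqp : q ≠ p) (E : Subgroup Γ)
    (x : Fin (finrank ℤ L) → Γ)
    (hx : Subgroup.closure ((E : Set Γ) ∪ Set.range x ∪ (ι.range : Set Γ)) = ⊤) :
    ∃ t : Fin (finrank ℤ L) → L,
      Subgroup.closure ((E : Set Γ) ∪ Set.range (fun i => x i * ι (Multiplicative.ofAdd (t i))) ∪
        mulSet ι q) = ⊤ := by
  classical
  have hN : ι.range.Normal := hC.normal_range
  have hN0 : (mulSub ι q).Normal := hC.normal_mulSub q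
  have hfi := hC.fin
  have hle : mulSub ι q ≤ ι.range := by
    rintro _ ⟨v, rfl⟩
    exact ⟨v ^ q, rfl⟩
  have hidx : (mulSub ι q).index ≠ 0 := by
    rw [← Subgroup.relIndex_mul_index hle]
    exact mul_ne_zero (hC.relIndex_mulSub q hq.ne_zero) hfi.index_ne_zero
  have hAp : ∀ a ∈ A, ∃ k, a ^ p ^ k ∈ ι.range := by
    intro a ha
    obtain ⟨k, hk⟩ := hA
    refine ⟨k, ?_⟩
    have h1 := Subgroup.pow_index_mem (ι.range.subgroupOf A) (⟨a, ha⟩ : A)
    rw [Subgroup.mem_subgroupOf] at h1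
    rw [← hk]
    exact h1
  obtain ⟨n, hn, hgen⟩ := Pool.B7h12.rgl (N₀ := mulSub ι q) (N := ι.range) hN0 hN hle hidx E x
    (by
      rw [Set.union_right_comm]
      exact hx)
    (by
      intro M _ _ _ c
      right
      exact der_bound hC hs p hp A hTA hAp q hq hqp c _)
  choose t ht using hn
  refine ⟨fun i => Multiplicative.toAdd (t i), ?_⟩
  rw [← coe_mulSub, Set.union_right_comm, ← hgen]
  congr 3
  funext i
  rw [ofAdd_toAdd, ht]

end Pool.MP_b7b920_al.CT
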